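import Mathlib
import Pool.Agent.Work.MP_e97a4d_nt.VpMain3

set_option autoImplicit false

noncomputable section

namespace Pool.Agent.Results.MP_e97a4d_nt.EmptyExceptionalSet

open AlgebraicGeometry CategoryTheory IsDedekindDomain NumberField
open Pool.Agent.Work.MP_e97a4d_nt

/-- Elimination of the exceptional closed subscheme. For every scheme `V` of finite type over the
ring of integers and every closed subscheme `V'` there is a local isomorphism `p : W ⟶ V` of finite
type such that (i) holds for `(V, V')` if and only if `W` contains no entire curve, for every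
complex embedding, and (ii) holds for `(V, V')` if and only if all the sets `W(O_S)` are finite.
Hence each of the two implications of the Bombieri-Lang-Vojta conjecture, for all `V` in a class
stable under local isomorphisms and all `V'`, is equivalent to its special case `V' = ∅`. -/
theorem result {F₀ : Type} [Field F₀] [NumberField F₀] :
    (∀ (V V' : Scheme.{0}) (π : V ⟶ Spec (CommRingCat.of (𝓞 F₀))) [LocallyOfFiniteType π]
      [QuasiCompact π] (i : V' ⟶ V) [IsClosedImmersion i],
      ∃ (W : Scheme.{0}) (p : W ⟶ V), IsLocalIso p ∧ LocallyOfFiniteType (p ≫ π) ∧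
        QuasiCompact (p ≫ π) ∧
        (∀ σ : F₀ →+* ℂ, CondI σ π i ↔
          ∀ f : ℂ → (Spec (CommRingCat.of ℂ) ⟶ W), ¬ IsEntireCurve σ (p ≫ π) f) ∧
        (CondII π i ↔ ∀ (F : Type) [Field F] [NumberField F] [Algebra F₀ F]
          (S : Finset (HeightOneSpectrum (𝓞 F))), (integralPoints (p ≫ π) F S).Finite)) ∧
    ∀ (σ : F₀ →+* ℂ) (K : ∀ V : Scheme.{0}, (V ⟶ Spec (CommRingCat.of (𝓞 F₀))) → Prop),
      (∀ (V W : Scheme.{0}) (π : V ⟶ Spec (CommRingCat.of (𝓞 F₀))) (p : W ⟶ V) [IsLocalIso p],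
        K V π → K W (p ≫ π)) →
      ((∀ (V V' : Scheme.{0}) (π : V ⟶ Spec (CommRingCat.of (𝓞 F₀))) [LocallyOfFiniteType π]
          [QuasiCompact π] (i : V' ⟶ V) [IsClosedImmersion i],
          K V π → CondI σ π i → CondII π i) ↔
        ∀ (V : Scheme.{0}) (π : V ⟶ Spec (CommRingCat.of (𝓞 F₀))) [LocallyOfFiniteType π]
          [QuasiCompact π], K V π →
          (∀ f : ℂ → (Spec (CommRingCat.of ℂ) ⟶ V), ¬ IsEntireCurve σ π f) →
          ∀ (F : Type) [Field F] [NumberField F] [Algebra F₀ F]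
            (S : Finset (HeightOneSpectrum (𝓞 F))), (integralPoints π F S).Finite) ∧
      ((∀ (V V' : Scheme.{0}) (π : V ⟶ Spec (CommRingCat.of (𝓞 F₀))) [LocallyOfFiniteType π]
          [QuasiCompact π] (i : V' ⟶ V) [IsClosedImmersion i],
          K V π → CondII π i → CondI σ π i) ↔
        ∀ (V : Scheme.{0}) (π : V ⟶ Spec (CommRingCat.of (𝓞 F₀))) [LocallyOfFiniteType π]
          [QuasiCompact π], K V π →
          (∀ (F : Type) [Field F] [NumberField F] [Algebra F₀ F]
            (S : Finset (HeightOneSpectrum (𝓞 F))), (integralPoints π F S).Finite) →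
          ∀ f : ℂ → (Spec (CommRingCat.of ℂ) ⟶ V), ¬ IsEntireCurve σ π f) := by
  refine ⟨fun V V' π _ _ i _ => Vp.exists_companion V V' π i, fun σ K hK =>
    ⟨⟨?_, ?_⟩, ⟨?_, ?_⟩⟩⟩
  · intro h V π _ _ hV hno
    exact (Vp.condII_empty π).1 (h V ∅ π (Scheme.emptyTo V) hV ((Vp.condI_empty σ π).2 hno))
  · intro h V V' π _ _ i _ hV hI
    obtain ⟨W, p, hp, h1, h2, h3, h4⟩ := Vp.exists_companion V V' π i
    exact h4.2 (h W (p ≫ π) (hK V W π p hV) ((h3 σ).1 hI))
  · intro h V π _ _ hV hfin
    exact (Vp.condI_empty σ π).1 (h V ∅ π (Scheme.emptyTo V) hV ((Vp.condII_empty π).2 hfin))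
  · intro h V V' π _ _ i _ hV hII
    obtain ⟨W, p, hp, h1, h2, h3, h4⟩ := Vp.exists_companion V V' π i
    exact (h3 σ).2 (h W (p ≫ π) (hK V W π p hV) (h4.1 hII))

end Pool.Agent.Results.MP_e97a4d_nt.EmptyExceptionalSet
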