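import Mathlib
import Pool.Agent.Work.MP_e97a4d_nt.Defs
import Pool.Agent.Work.MP_e97a4d_nt.ExpDefs
import Pool.Agent.Work.MP_e97a4d_nt.ExpMain

/-!
The Bombieri-Lang-Vojta equivalence for exponential polynomial entire curves and for integral
points along linear recurrences.
-/

set_option autoImplicit false

namespace Pool.Agent.Work.MP_e97a4d_nt.Old.ExpRecurrences

open AlgebraicGeometry CategoryTheory NumberField Pool.Agent.Work.MP_e97a4d_nt

/-- Let `V` be separated and of finite type over `O_{F₀}` and `V'` a closed subscheme. Condition (i)
implies its restriction `CondIexp` to exponential polynomial curves, condition (ii) implies its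
restriction `CondIIrec` to linear recurrences, and the two restricted conditions are equivalent to each
other and to the condition that every non-constant morphism `𝔾_m ⟶ V_ℂ` has its image in `V'`. -/
theorem result {F₀ : Type} [Field F₀] [NumberField F₀] (σ : F₀ →+* ℂ) {V V' : Scheme.{0}}
    (π : V ⟶ Spec (CommRingCat.of (𝓞 F₀))) [IsSeparated π] [LocallyOfFiniteType π]
    (i : V' ⟶ V) [IsClosedImmersion i] :
    (CondI σ π i → CondIexp σ π i) ∧ (CondII π i → CondIIrec π i) ∧
      [CondIexp σ π i, CondIIrec π i, CondGm σ π i].TFAE :=
  blv_exp σ π i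

end Pool.Agent.Work.MP_e97a4d_nt.Old.ExpRecurrences
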