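import Mathlib
import Pool.Agent.Work.MP_e97a4d_nt.Defs
import Pool.Agent.Work.MP_e97a4d_nt.Holonomic
import Pool.Agent.Work.MP_e97a4d_nt.Identity

set_option autoImplicit false

noncomputable section

namespace Pool.Agent.Work.MP_e97a4d_nt.Old.LinearCurves

open AlgebraicGeometry CategoryTheory IsDedekindDomain NumberField
open Pool.Agent.Work.MP_e97a4d_nt

/-- `g` is a holomorphic chart of `f` on the open set `Ω`: there `f` takes values in the affine
open `j : Spec A ⟶ V`, where it is given by the ring homomorphisms `g w : A →+* ℂ`, and all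
regular functions of the chart pull back to holomorphic functions. -/
structure IsChart {V : Scheme.{0}} (f : ℂ → (Spec (CommRingCat.of ℂ) ⟶ V)) {A : CommRingCat.{0}}
    (j : Spec A ⟶ V) (g : ℂ → (A →+* ℂ)) (Ω : Set ℂ) : Prop where
  immersion : IsOpenImmersion j
  isOpen : IsOpen Ω
  eq : ∀ w ∈ Ω, f w = Spec.map (CommRingCat.ofHom (g w)) ≫ j
  holo : ∀ a : A, DifferentiableOn ℂ (fun w => g w a) Ω

/-- `f` is linear: in some chart over some nonempty connected open set `Ω`, and for some ring `D`
of holomorphic functions on `Ω` containing the constants and closed under differentiation, every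
regular function of the chart pulls back to a solution of a nonzero linear differential equation
with coefficients in `D`, and at least one of them pulls back to a function that is not
algebraic over `D`. -/
def IsLinear {V : Scheme.{0}} (f : ℂ → (Spec (CommRingCat.of ℂ) ⟶ V)) : Prop :=
  ∃ (A : CommRingCat.{0}) (j : Spec A ⟶ V) (g : ℂ → (A →+* ℂ)) (Ω : Set ℂ)
    (D : Subalgebra ℂ (ℂ → ℂ)), IsChart f j g Ω ∧ Ω.Nonempty ∧ IsPreconnected Ω ∧
      IsDiffRing Ω D ∧ (∀ a : A, LinODE Ω D (fun w => g w a)) ∧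
      ∃ a : A, ¬ AlgOver Ω D (fun w => g w a)

/-- If condition (ii) holds for `(V, V')`, then `V'` contains the image of every entire curve in
`V(ℂ)` which is linear. -/
theorem result {F₀ : Type} [Field F₀] [NumberField F₀] (σ : F₀ →+* ℂ) {V V' : Scheme.{0}}
    (π : V ⟶ Spec (CommRingCat.of (𝓞 F₀))) [LocallyOfFiniteType π] (i : V' ⟶ V)
    [IsClosedImmersion i] (h2 : CondII π i) (f : ℂ → (Spec (CommRingCat.of ℂ) ⟶ V))
    (hf : IsEntireCurve σ π f) (hlin : IsLinear f) (z : ℂ) :
    ∃ p : Spec (CommRingCat.of ℂ) ⟶ V', p ≫ i = f z := by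
  obtain ⟨A, j, g, Ω, D, hch, hne, hc, hD, hl, a₁, ha₁⟩ := hlin
  have := hch.immersion
  refine factors_of_open σ π i f hf.1 Ω hch.isOpen hne ?_ z
  intro z₁ hz₁
  by_contra hout
  rw [hch.eq z₁ hz₁] at hout
  refine not_condII_of_linODE σ π i j g hch.isOpen hc hD hch.holo ?_ hl a₁ ha₁ z₁ hz₁ hout h2
  intro w hw
  rw [← hch.eq w hw]
  exact hf.1.structural w

end Pool.Agent.Work.MP_e97a4d_nt.Old.LinearCurves
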