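import Mathlib
import Pool.Agent.Work.MP_e97a4d_nt.Defs
import Pool.Agent.Work.MP_e97a4d_nt.ExpDefs
import Pool.Agent.Work.MP_e97a4d_nt.ExpMain
import Pool.Agent.Work.MP_e97a4d_nt.ChMainDefs
import Pool.Agent.Work.MP_e97a4d_nt.ChMain
import Pool.Agent.Work.MP_e97a4d_nt.ChFin
import Pool.Agent.Work.MP_e97a4d_nt.ChConv
import Pool.Agent.Work.MP_e97a4d_nt.LwDefs
import Pool.Agent.Work.MP_e97a4d_nt.LwCurve
import Pool.Agent.Work.MP_e97a4d_nt.LwExp
import Pool.Agent.Work.MP_e97a4d_nt.CtDefs
import Pool.Agent.Work.MP_e97a4d_nt.Ct4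
import Pool.Agent.Work.MP_e97a4d_nt.Ct5

/-!
A uniform bound for the number of points on linear walks follows from each of the two conditions of
the Bombieri-Lang-Vojta conjecture, and is equivalent to the restrictions of the two conditions to
linear entire curves (local solutions of linear differential equations, for instance exponential
polynomials or holonomic functions) and to linear recurrences of integral points.
-/

set_option autoImplicit false

namespace Pool.Agent.Results.MP_e97a4d_nt.LinearWalks

open AlgebraicGeometry CategoryTheory NumberField Pool.Agent.Work.MP_e97a4d_nt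
  Pool.Agent.Work.MP_e97a4d_nt.Chain

/-- There is a function `C` such that for all `V` separated and locally of finite type over
`O_{F₀}` and all closed subschemes `V'`: each of the conditions (i) and (ii) implies the uniform
bound `CondCount C` for the number of points on linear walks; condition (i) implies its restriction
`CondIlin` to linear entire curves, condition (ii) implies its restriction `CondIIrec` to linear
recurrences, and these two are equivalent to each other, to the uniform bound `CondCount C`, to the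
bounded displacement `CondWalk C` of linear walks, and to the condition that every non-constant
morphism `𝔾_m ⟶ V_ℂ` has its image in `V'`. -/
theorem result : ∃ C : ℕ → ℕ → ℕ, ∀ {F₀ : Type} [Field F₀] [NumberField F₀] (σ : F₀ →+* ℂ)
    {V V' : Scheme.{0}} (π : V ⟶ Spec (CommRingCat.of (𝓞 F₀))) [IsSeparated π]
    [LocallyOfFiniteType π] (i : V' ⟶ V) [IsClosedImmersion i],
    (CondI σ π i ∨ CondII π i → CondCount C σ π i) ∧
      (CondI σ π i → CondIlin σ π i) ∧ (CondII π i → CondIIrec π i) ∧
      [CondIlin σ π i, CondIIrec π i, CondCount C σ π i, CondWalk (fun k D => C k D) σ π i,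
        CondGm σ π i].TFAE := by
  obtain ⟨C₁, -, hC₁⟩ := exists_constants
  obtain ⟨C₂, hC₂⟩ := exists_constants_count
  refine ⟨fun k D => max ⌈C₁ k D⌉₊ (C₂ k D), fun σ V V' π _ _ i _ => ?_⟩
  have hw : CondIexp σ π i → CondWalk (fun k D => ((max ⌈C₁ k D⌉₊ (C₂ k D) : ℕ) : ℝ)) σ π i :=
    fun h => condWalk_mono (fun k D => (Nat.le_ceil (C₁ k D)).trans
      (Nat.cast_le.2 (le_max_left _ _))) (hC₁ σ π i h)
  have hc : CondIexp σ π i → CondCount (fun k D => max ⌈C₁ k D⌉₊ (C₂ k D)) σ π i :=
    fun h => condCount_mono (fun k D => le_max_right _ _) (hC₂ σ π i h)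
  obtain ⟨-, h2, h3⟩ := blv_exp σ π i
  refine ⟨fun h => hc (condIexp_of_or σ π i h), fun h f hf _ => h f hf, h2, ?_⟩
  have h13 : CondIexp σ π i ↔ CondGm σ π i := h3.out 0 2
  tfae_have 2 ↔ 5 := h3.out 1 2
  tfae_have 5 → 1 := condIlin_of_condGm σ π i
  tfae_have 1 → 5 := fun h => h13.1 (condIexp_of_condIlin σ π i h)
  tfae_have 5 → 4 := fun h => hw (h13.2 h)
  tfae_have 5 → 3 := fun h => hc (h13.2 h)
  tfae_have 4 → 5 := fun h => condGm_of_condIIwalk σ π i (condIIwalk_of_condWalk _ σ π i h)
  tfae_have 3 → 5 := fun h => condGm_of_condIIwalk σ π i (condIIwalk_of_condCount _ σ π i h)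
  tfae_finish

end Pool.Agent.Results.MP_e97a4d_nt.LinearWalks
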