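import Mathlib
import Pool.Agent.Work.MP_e97a4d_nt.Defs
import Pool.Agent.Work.MP_e97a4d_nt.ComplementDefs
import Pool.Agent.Work.MP_e97a4d_nt.Complement

/-!
The Bombieri-Lang-Vojta equivalence, for every closed subscheme `V'`, when `V_ℂ` is (dominated by a
quasi-finite image of) the complement of a hypersurface section of log Fano or log Calabi-Yau type.
-/

set_option autoImplicit false

namespace Pool.Agent.Work.MP_e97a4d_nt.Old.LogCYComplements

open AlgebraicGeometry CategoryTheory Limits NumberField Pool.Agent.Work.MP_e97a4d_nt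

/-- Let `X ⊆ ℙⁿ` be cut out by complex forms `g j` of degrees `d j`, let `h` be a form of degree
`e ≥ 1`, and assume `∑ d j + max (e - 1) 1 ≤ n` (here `n + 1` is the number of variables). Let `W` be
the affine variety `g = 0, h = 1`, a finite étale cover of `X ∖ {h = 0}`. If there is a dominant
morphism `W ⟶ V_ℂ` with finite fibres, then conditions (i) and (ii) are equivalent for `(V, V')`,
for every closed subscheme `V'` of `V`. -/
theorem result {F₀ : Type} [Field F₀] [NumberField F₀] (σ : F₀ →+* ℂ) {V V' : Scheme.{0}}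
    (π : V ⟶ Spec (CommRingCat.of (𝓞 F₀))) [IsSeparated π] [LocallyOfFiniteType π]
    (i : V' ⟶ V) [IsClosedImmersion i] {ι J : Type} [Fintype ι] [Fintype J]
    (g : J → MvPolynomial ι ℂ) (d : J → ℕ) (hg : ∀ j, (g j).IsHomogeneous (d j))
    (h : MvPolynomial ι ℂ) (e : ℕ) (he : h.IsHomogeneous e) (he1 : 1 ≤ e)
    (hdeg : ∑ j, d j + max (e - 1) 1 < Fintype.card ι)
    (q : Spec (CommRingCat.of (CoordRing g h)) ⟶
      pullback π (Spec.map (CommRingCat.ofHom (σ.comp (algebraMap (𝓞 F₀) F₀)))))
    (hq : q ≫ pullback.snd _ _ = Spec.map (CommRingCat.ofHom (algebraMap ℂ (CoordRing g h))))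
    (hdom : IsDominant q)
    (hfin : ∀ p : Spec (CommRingCat.of ℂ) ⟶
        pullback π (Spec.map (CommRingCat.ofHom (σ.comp (algebraMap (𝓞 F₀) F₀)))),
      {w : CoordRing g h →ₐ[ℂ] ℂ |
        Spec.map (CommRingCat.ofHom (w : CoordRing g h →+* ℂ)) ≫ q = p}.Finite) :
    BLV σ π i :=
  blv_complement σ π i g d hg h e he he1 hdeg q hq hdom hfin

end Pool.Agent.Work.MP_e97a4d_nt.Old.LogCYComplements
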