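import Mathlib
import Pool.Agent.Work.MP_e97a4d_nt.Sep.Final

set_option autoImplicit false

noncomputable section

namespace Pool.Agent.Work.MP_e97a4d_nt.Old.SeparatedElimination

open AlgebraicGeometry CategoryTheory IsDedekindDomain NumberField
open Pool.Agent.Work.MP_e97a4d_nt Pool.Agent.Work.MP_e97a4d_nt.Sep

/-- Elimination of the exceptional closed subscheme `V'` inside any class `C` of separated schemes over
the ring of integers which is stable under passing to open subschemes of affine lines. -/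
theorem result {F₀ : Type} [Field F₀] [NumberField F₀] (σ : F₀ →+* ℂ)
    (C : ∀ V : Scheme.{0}, (V ⟶ Spec (CommRingCat.of (𝓞 F₀))) → Prop)
    (hsep : ∀ (V : Scheme.{0}) (π : V ⟶ Spec (CommRingCat.of (𝓞 F₀))), C V π → IsSeparated π)
    (hline : ∀ (V : Scheme.{0}) (π : V ⟶ Spec (CommRingCat.of (𝓞 F₀))), C V π →
      ∀ W : (AL V).Opens, C W (W.ι ≫ pr V ≫ π)) :
    ((∀ (V : Scheme.{0}) (π : V ⟶ Spec (CommRingCat.of (𝓞 F₀))), C V π →
        FinPts π → NoCurve σ π) ↔
      ∀ (V V' : Scheme.{0}) (π : V ⟶ Spec (CommRingCat.of (𝓞 F₀))) (i : V' ⟶ V)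
        [IsClosedImmersion i], C V π → IsQP (i ≫ π) → CondII π i → CondI σ π i) ∧
    ((∀ (V : Scheme.{0}) (π : V ⟶ Spec (CommRingCat.of (𝓞 F₀))), C V π →
        NoCurve σ π → FinPts π) ↔
      ∀ (V V' : Scheme.{0}) (π : V ⟶ Spec (CommRingCat.of (𝓞 F₀))) (i : V' ⟶ V)
        [IsClosedImmersion i], C V π → IsQP (i ≫ π) → CondI σ π i → ∀ m, CondIIm m π i) :=
  elimination σ C hsep hline

end Pool.Agent.Work.MP_e97a4d_nt.Old.SeparatedElimination
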