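import Mathlib
import Pool.Agent.Work.MP_e97a4d_nt.Thue.Final

set_option autoImplicit false

noncomputable section

namespace Pool.Agent.Work.MP_e97a4d_nt.Old.ThueEquations

open AlgebraicGeometry CategoryTheory NumberField
open Pool.Agent.Work.MP_e97a4d_nt Pool.Agent.Work.MP_e97a4d_nt.Thue

/-- For affine schemes of finite type over the ring of integers the Bombieri-Lang-Vojta equivalence, and
its half (i) => (ii), are equivalent to their cases for the equations `f(x_0, ..., x_m) = 1`, `f` a smooth
form of arbitrarily large degree, relative to `x_0 = 0`; the half (i) => (ii) with empty exceptional set is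
equivalent to its case for the same equations with empty exceptional set. -/
theorem result (F₀ : Type) [Field F₀] [NumberField F₀] (σ : F₀ →+* ℂ) (Δ : ℕ → ℕ) :
    -- (i) => (ii), all affine `V` of finite type, all closed `V'`
    ((∀ (V V' : Scheme.{0}) (π : V ⟶ Spec (CommRingCat.of (𝓞 F₀))) (i : V' ⟶ V), IsAffine V →
        LocallyOfFiniteType π → IsClosedImmersion i → CondI σ π i → CondII π i) ↔
      ∀ (m : ℕ) (f : MvPolynomial (Fin (m + 1)) (𝓞 F₀)), IsThue σ Δ m f →
        ThueI σ f → ThueII f) ∧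
    -- (i) <=> (ii), all affine `V` of finite type, all closed `V'`
    ((∀ (V V' : Scheme.{0}) (π : V ⟶ Spec (CommRingCat.of (𝓞 F₀))) (i : V' ⟶ V), IsAffine V →
        LocallyOfFiniteType π → IsClosedImmersion i → (CondI σ π i ↔ CondII π i)) ↔
      ∀ (m : ℕ) (f : MvPolynomial (Fin (m + 1)) (𝓞 F₀)), IsThue σ Δ m f →
        (ThueI σ f ↔ ThueII f)) ∧
    -- (i) => (ii), all affine `V` of finite type, `V' = ∅`
    ((∀ (V : Scheme.{0}) (π : V ⟶ Spec (CommRingCat.of (𝓞 F₀))), IsAffine V →
        LocallyOfFiniteType π → Sep.NoCurve σ π → Sep.FinPts π) ↔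
      ∀ (m : ℕ) (f : MvPolynomial (Fin (m + 1)) (𝓞 F₀)), IsThue σ Δ m f →
        Thue0I σ f → Thue0II f) :=
  final F₀ σ Δ

end Pool.Agent.Work.MP_e97a4d_nt.Old.ThueEquations
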