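import Mathlib
import Pool.Agent.Work.MP_e97a4d_nt.Defs
import Pool.Agent.Work.MP_e97a4d_nt.ExpDefs
import Pool.Agent.Work.MP_e97a4d_nt.UP.Defs
import Pool.Agent.Work.MP_e97a4d_nt.UP.PBDefs
import Pool.Agent.Work.MP_e97a4d_nt.UP.Main
import Pool.Agent.Work.MP_e97a4d_nt.UE.Defs
import Pool.Agent.Work.MP_e97a4d_nt.UE.Main

/-!
The Bombieri-Lang-Vojta equivalence for unit points and unit curves, and for all schemes such that
every subvariety outside the exceptional set is swept out by the multiplicative group or has a finite
etale cover on which its functions are generated by units and constants.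
-/

set_option autoImplicit false

namespace Pool.Agent.Results.MP_e97a4d_nt.UnitCovers

open AlgebraicGeometry CategoryTheory NumberField Pool.Agent.Work.MP_e97a4d_nt

/-- Let `V` be a scheme of finite type over `O_{F₀}` and `V'` a closed subscheme. Condition (i)
implies its restriction `CondIunit` to unit curves, condition (ii) implies its restriction
`CondIIunit` to unit points, and these two restrictions are equivalent to each other and to the
condition that every non-constant morphism `𝔾_m ⟶ V_ℂ` has its image in `V'`. If every integral closed
subscheme of the generic fibre of `V` which is not contained in `V'` is swept out by the multiplicative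
group or has (after normalization) a finite etale cover on which its functions are rational expressions
in constants and invertible functions (`UnitGen`), then conditions (i) and (ii) themselves are
equivalent, and equivalent to the condition on the multiplicative group. `UnitGen` holds if finitely
many global units `h` of `V` define a morphism from `V ∖ V'` to an affine space which is surjective on
stalks (for instance an immersion). -/
theorem result {F₀ : Type} [Field F₀] [NumberField F₀] (σ : F₀ →+* ℂ) {V V' : Scheme.{0}}
    (π : V ⟶ Spec (CommRingCat.of (𝓞 F₀))) [LocallyOfFiniteType π] [QuasiCompact π]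
    (i : V' ⟶ V) [IsClosedImmersion i] :
    (CondI σ π i → CondIunit σ π i) ∧ (CondII π i → CondIIunit π i) ∧
      [CondIunit σ π i, CondIIunit π i, CondGm σ π i].TFAE ∧
      (UE.UnitGen σ π i → [CondI σ π i, CondII π i, CondGm σ π i].TFAE) ∧
      ∀ (n : ℕ) (h : Fin n → Γ(V, ⊤)), (∀ m, IsUnit (h m)) →
        SurjectiveOnStalks (toAff π i h) → UE.UnitGen σ π i := by
  obtain ⟨h1, h2, h3⟩ := unit_tfae σ π i
  exact ⟨h1, h2, h3, fun hU => UE.blv_etale σ π i hU,
    fun n h hu himm => UE.unitGen_of_units σ π i h hu himm⟩

end Pool.Agent.Results.MP_e97a4d_nt.UnitCovers
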