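import Mathlib
import Pool.Agent.Work.MP_e97a4d_nt.Defs
import Pool.Agent.Work.MP_e97a4d_nt.ExpDefs
import Pool.Agent.Work.MP_e97a4d_nt.UP.Defs
import Pool.Agent.Work.MP_e97a4d_nt.UP.PBDefs
import Pool.Agent.Work.MP_e97a4d_nt.UP.Main

/-!
The Bombieri-Lang-Vojta equivalence for unit points and unit curves, and for all schemes whose
part outside the exceptional set is generated by global units (for instance divisibility problems
between values of polynomials at S-units).
-/

set_option autoImplicit false

namespace Pool.Agent.Work.MP_e97a4d_nt.Old.UnitPoints

open AlgebraicGeometry CategoryTheory NumberField Pool.Agent.Work.MP_e97a4d_nt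

/-- Let `V` be a scheme of finite type over `O_{F₀}` and `V'` a closed subscheme. Condition (i)
implies its restriction `CondIunit` to unit curves, condition (ii) implies its restriction
`CondIIunit` to unit points, and these two restrictions are equivalent to each other and to the
condition that every non-constant morphism `𝔾_m ⟶ V_ℂ` has its image in `V'`. If finitely many
global units `h` of `V` define a morphism from `V ∖ V'` to an affine space which is surjective on
stalks (for instance an immersion), then conditions (i) and (ii) themselves are equivalent, and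
equivalent to the condition on the multiplicative group. -/
theorem result {F₀ : Type} [Field F₀] [NumberField F₀] (σ : F₀ →+* ℂ) {V V' : Scheme.{0}}
    (π : V ⟶ Spec (CommRingCat.of (𝓞 F₀))) [LocallyOfFiniteType π] [QuasiCompact π]
    (i : V' ⟶ V) [IsClosedImmersion i] :
    (CondI σ π i → CondIunit σ π i) ∧ (CondII π i → CondIIunit π i) ∧
      [CondIunit σ π i, CondIIunit π i, CondGm σ π i].TFAE ∧
      ∀ (n : ℕ) (h : Fin n → Γ(V, ⊤)), (∀ m, IsUnit (h m)) →
        SurjectiveOnStalks (toAff π i h) → [CondI σ π i, CondII π i, CondGm σ π i].TFAE := by
  obtain ⟨h1, h2, h3⟩ := unit_tfae σ π i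
  exact ⟨h1, h2, h3, fun n h hu himm => blv_units σ π i h hu himm⟩

end Pool.Agent.Work.MP_e97a4d_nt.Old.UnitPoints
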